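import Pool.Agent.SZT.StmtsC

set_option autoImplicit false

/-!
# Squad SZT, row PEL: the Pell equation of a good ideal
-/

namespace Pool.Agent.SZT.H88

open Polynomial NumberField H58Q

/-- conjugation. -/
noncomputable def cj {K : Type} [Field K] (f : K[X]) : Q K f →+* Q K f := starRingEnd (Q K f)

theorem cj_mk {K : Type} [Field K] (f U W : K[X]) :
    cj f (⟨U, W⟩ : Q K f) = ⟨U, -W⟩ := by
  change star (⟨U, W⟩ : Q K f) = _
  rw [QuadraticAlgebra.star_mk]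
  simp

theorem mk_mul {K : Type} [Field K] (f U W U' W' : K[X]) :
    (⟨U, W⟩ : Q K f) * ⟨U', W'⟩ = ⟨U * U' + f * W * W', U * W' + W * U'⟩ := by
  rw [QuadraticAlgebra.mk_mul_mk]
  simp

theorem mk_pow {K : Type} [Field K] (f A : K[X]) (M : ℕ) :
    (⟨A, 0⟩ : Q K f) ^ M = ⟨A ^ M, 0⟩ := by
  induction M with
  | zero => simp; rfl
  | succ M ih => rw [pow_succ, ih, mk_mul, pow_succ]; simp

theorem map_cj_MI {K : Type} [Field K] (f A B : K[X]) :
    (MI f A B).map (cj f) = MI f A (-B) := by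
  rw [MI, MI, Ideal.map_span, Set.image_pair, cj_mk, cj_mk, neg_zero]
  have h : (⟨-B, -1⟩ : Q K f) = (-1) * ⟨- -B, 1⟩ := by
    have : (-1 : Q K f) = ⟨-1, 0⟩ := by
      rw [show (1 : Q K f) = ⟨1, 0⟩ from rfl, QuadraticAlgebra.neg_mk, neg_zero]
    rw [this, mk_mul]
    ext <;> simp
  rw [h, Ideal.span_insert, Ideal.span_insert]
  congr 1
  exact Ideal.span_singleton_mul_left_unit (isUnit_one.neg) _

theorem norm_span {K : Type} [Field K] (f A B U W : K[X]) (M : ℕ)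
    (h1 : MI f A B * MI f A (-B) = Ideal.span {(⟨A, 0⟩ : Q K f)})
    (h : (MI f A B) ^ M = Ideal.span {(⟨U, W⟩ : Q K f)}) :
    ∃ c : K, c ≠ 0 ∧ U ^ 2 - f * W ^ 2 = C c * A ^ M := by
  have h2 : (MI f A (-B)) ^ M = Ideal.span {(⟨U, -W⟩ : Q K f)} := by
    rw [← map_cj_MI, ← Ideal.map_pow, h, Ideal.map_span, Set.image_singleton, cj_mk]
  have h3 : Ideal.span {(⟨A ^ M, 0⟩ : Q K f)} = Ideal.span {(⟨U ^ 2 - f * W ^ 2, 0⟩ : Q K f)} := by
    rw [← mk_pow, ← Ideal.span_singleton_pow, ← h1, mul_pow, h, h2, Ideal.span_singleton_mul_span_singleton,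
      mk_mul]
    congr 3
    · ring
    · ring
  have h4 : A ^ M ∣ U ^ 2 - f * W ^ 2 := by
    have : (⟨U ^ 2 - f * W ^ 2, 0⟩ : Q K f) ∈ Ideal.span {(⟨A ^ M, 0⟩ : Q K f)} := by
      rw [h3]; exact Ideal.mem_span_singleton_self _
    obtain ⟨⟨r, s⟩, hr⟩ := Ideal.mem_span_singleton.mp this
    rw [mk_mul] at hr
    have := congrArg QuadraticAlgebra.re hr
    refine ⟨r, ?_⟩
    simpa using this
  have h5 : U ^ 2 - f * W ^ 2 ∣ A ^ M := by
    have : (⟨A ^ M, 0⟩ : Q K f) ∈ Ideal.span {(⟨U ^ 2 - f * W ^ 2, 0⟩ : Q K f)} := by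
      rw [← h3]; exact Ideal.mem_span_singleton_self _
    obtain ⟨⟨r, s⟩, hr⟩ := Ideal.mem_span_singleton.mp this
    rw [mk_mul] at hr
    have := congrArg QuadraticAlgebra.re hr
    refine ⟨r, ?_⟩
    simpa using this
  obtain ⟨u, hu⟩ := associated_of_dvd_dvd h4 h5
  obtain ⟨c, hc, hc2⟩ := Polynomial.isUnit_iff.mp u.isUnit
  refine ⟨c, hc.ne_zero, ?_⟩
  rw [← hu, ← hc2, mul_comm]

theorem pel (h1 : MiiStatement) (h2 : MikStatement) : PelStatement := by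
  intro K _ f A B M hK hsq hf hG hM hP
  have hA : A ≠ 0 := hG.monic.ne_zero
  obtain ⟨⟨⟨U0, W0⟩, hu⟩⟩ := hP
  have hu' : (MI f A B) ^ M = Ideal.span {(⟨U0, W0⟩ : Q K f)} := hu
  obtain ⟨c, hc, hN⟩ := norm_span f A B U0 W0 M (h1 K f A B hK hsq hG.dvd) hu'
  -- degrees
  have hdeg : (U0 ^ 2 - f * W0 ^ 2).natDegree = 2 * M := by
    rw [hN, natDegree_C_mul hc, natDegree_pow, hG.two, mul_comm]
  have hlead : (U0 ^ 2 - f * W0 ^ 2).leadingCoeff = c := by
    rw [hN, leadingCoeff_mul, leadingCoeff_C, leadingCoeff_pow, hG.monic.leadingCoeff, one_pow,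
      mul_one]
  have hf0 : f ≠ 0 := by rintro rfl; simp at hf
  have hlt : (f * W0 ^ 2).degree < (U0 ^ 2).degree := by
    by_contra hcon
    rw [not_lt] at hcon
    have hne0 : U0 ^ 2 - f * W0 ^ 2 ≠ 0 := by
      intro h0
      rw [h0, leadingCoeff_zero] at hlead
      exact hc hlead.symm
    by_cases hW : W0 = 0
    · rw [hW] at hcon
      simp only [ne_eq, OfNat.ofNat_ne_zero, not_false_eq_true, zero_pow, mul_zero, degree_zero,
        le_bot_iff, degree_eq_bot] at hcon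
      rw [hcon, hW] at hne0
      simp at hne0
    · have hfW : f * W0 ^ 2 ≠ 0 := mul_ne_zero hf0 (pow_ne_zero 2 hW)
      have hd2 : (f * W0 ^ 2).natDegree = 5 + 2 * W0.natDegree := by
        rw [natDegree_mul hf0 (pow_ne_zero 2 hW), natDegree_pow, hf]
      rcases hcon.lt_or_eq with hlt | heq
      · have h3 : (U0 ^ 2 - f * W0 ^ 2).degree = (f * W0 ^ 2).degree :=
          degree_sub_eq_right_of_degree_lt hlt
        have h4 := natDegree_eq_of_degree_eq h3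
        rw [hdeg, hd2] at h4
        omega
      · have h4 := natDegree_eq_of_degree_eq heq
        rw [hd2, natDegree_pow] at h4
        omega
  have hlam : U0.leadingCoeff ^ 2 = c := by
    rw [← hlead, leadingCoeff_sub_of_degree_lt hlt, leadingCoeff_pow]
  set lam := U0.leadingCoeff with hlam_def
  have hlam0 : lam ≠ 0 := by
    intro h0
    rw [h0] at hlam
    exact hc (by rw [← hlam]; ring)
  have hinv : lam⁻¹ ≠ 0 := inv_ne_zero hlam0
  have hpell : (C lam⁻¹ * U0) ^ 2 - f * (C lam⁻¹ * W0) ^ 2 = A ^ M := by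
    have : (C lam⁻¹ * U0) ^ 2 - f * (C lam⁻¹ * W0) ^ 2 = C lam⁻¹ ^ 2 * (U0 ^ 2 - f * W0 ^ 2) := by
      ring
    rw [this, hN, ← hlam, ← mul_assoc, ← C_pow, ← C_mul, inv_pow, inv_mul_cancel₀ (pow_ne_zero 2 hlam0),
      C_1, one_mul]
  have hspan : (MI f A B) ^ M = Ideal.span {(⟨C lam⁻¹ * U0, C lam⁻¹ * W0⟩ : Q K f)} := by
    rw [hu']
    have h3 : (⟨C lam⁻¹ * U0, C lam⁻¹ * W0⟩ : Q K f) = ⟨C lam⁻¹, 0⟩ * ⟨U0, W0⟩ := by
      rw [mk_mul]
      congr 1
      · ring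
      · ring
    have h4 : IsUnit (⟨C lam⁻¹, 0⟩ : Q K f) := by
      refine IsUnit.of_mul_eq_one (⟨C lam, 0⟩ : Q K f) ?_
      rw [mk_mul]
      have h5 : (1 : Q K f) = ⟨1, 0⟩ := rfl
      rw [h5]
      congr 1
      · rw [← C_mul, inv_mul_cancel₀ hlam0, C_1]
        ring
      · ring
    rw [h3, Ideal.span_singleton_mul_left_unit h4]
  refine ⟨C lam⁻¹ * U0, C lam⁻¹ * W0, hspan, hpell, ?_⟩
  generalize C lam⁻¹ * U0 = U at hpell hspan ⊢
  generalize C lam⁻¹ * W0 = W at hpell hspan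
  apply isCoprime_of_irreducible_dvd
  · rintro ⟨h, -⟩
    exact hA h
  intro p hp hpA hpU
  have hpf : ¬ p ∣ f := by
    intro hpf
    exact hp.not_isUnit (hG.cop.isUnit_of_dvd' hpA hpf)
  have hprime : Prime p := hp.prime
  have hpBf : p ∣ B ^ 2 - f := hpA.trans hG.dvd
  have hpW : p ∣ W := by
    have h3 : p ∣ f * W ^ 2 := by
      have h4 : f * W ^ 2 = U ^ 2 - A ^ M := by
        rw [← hpell]; ring
      rw [h4]
      exact dvd_sub (dvd_pow hpU (by norm_num)) (dvd_pow hpA hM.ne')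
    rcases hprime.dvd_or_dvd h3 with h4 | h4
    · exact absurd h4 hpf
    · exact hprime.dvd_of_dvd_pow h4
  have hpB : ¬ p ∣ 2 * B := by
    intro h3
    rcases hprime.dvd_or_dvd h3 with h4 | h4
    · have h5 : IsUnit (2 : K[X]) := by
        have : (2 : K[X]) = C 2 := rfl
        rw [this]
        exact Polynomial.isUnit_C.mpr (isUnit_iff_ne_zero.mpr hK)
      exact hp.not_isUnit (isUnit_of_dvd_unit h4 h5)
    · apply hpf
      have h6 : f = B ^ 2 - (B ^ 2 - f) := by ring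
      rw [h6]
      exact dvd_sub (dvd_pow h4 (by norm_num)) hpBf
  obtain ⟨a, b, hab⟩ : IsCoprime p (2 * B) := (Irreducible.coprime_iff_not_dvd hp).mpr hpB
  -- comaximality
  have hcomax : IsCoprime (MI f A B) (MI f p (-B)) := by
    rw [Ideal.isCoprime_iff_sup_eq, Ideal.eq_top_iff_one]
    have e1 : (⟨-B, 1⟩ : Q K f) ∈ MI f A B ⊔ MI f p (-B) :=
      Ideal.mem_sup_left (Ideal.subset_span (by simp))
    have e2 : (⟨- -B, 1⟩ : Q K f) ∈ MI f A B ⊔ MI f p (-B) :=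
      Ideal.mem_sup_right (Ideal.subset_span (by simp))
    have e3 : (⟨p, 0⟩ : Q K f) ∈ MI f A B ⊔ MI f p (-B) :=
      Ideal.mem_sup_right (Ideal.subset_span (by simp))
    have e4 := Ideal.add_mem _ (Ideal.mul_mem_left _ (⟨a, 0⟩ : Q K f) e3)
      (Ideal.mul_mem_left _ (⟨b, 0⟩ : Q K f) (Ideal.sub_mem _ e2 e1))
    have e5 : (⟨a, 0⟩ : Q K f) * ⟨p, 0⟩ + ⟨b, 0⟩ * (⟨- -B, 1⟩ - ⟨-B, 1⟩) = 1 := by
      rw [QuadraticAlgebra.mk_sub_mk, mk_mul, mk_mul]
      have h5 : (1 : Q K f) = ⟨1, 0⟩ := rfl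
      rw [h5]
      refine QuadraticAlgebra.ext ?_ ?_
      · rw [QuadraticAlgebra.re_add]
        change (a * p + f * 0 * 0) + (b * (- -B - -B) + f * 0 * (1 - 1)) = 1
        rw [← hab]; ring
      · rw [QuadraticAlgebra.im_add]
        change (a * 0 + 0 * p) + (b * (1 - 1) + 0 * (- -B - -B)) = 0
        ring
    rw [e5] at e4
    exact e4
  have hcomax2 : IsCoprime ((MI f A B) ^ M) (MI f p (-B)) := hcomax.pow_left
  have hle : (MI f A B) ^ M ≤ MI f p (-B) := by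
    rw [hspan, Ideal.span_singleton_le_iff_mem]
    obtain ⟨U', hU'⟩ := hpU
    obtain ⟨W', hW'⟩ := hpW
    have h3 : (⟨U, W⟩ : Q K f) = ⟨U', W'⟩ * ⟨p, 0⟩ := by
      rw [mk_mul, hU', hW']
      congr 1
      · ring
      · ring
    rw [h3]
    exact Ideal.mul_mem_left _ _ (Ideal.subset_span (by simp))
  have htop : MI f p (-B) = ⊤ := by
    rw [Ideal.isCoprime_iff_sup_eq] at hcomax2
    rw [← hcomax2]
    exact (sup_eq_right.mpr hle).symm
  have hone : (⟨1, 0⟩ : Q K f) ∈ MI f p (-B) := by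
    rw [htop]; trivial
  have h3 := (h2 K f p (-B) 1 0 (by rw [neg_sq]; exact hpBf)).mp hone
  rw [zero_mul, add_zero] at h3
  exact hp.not_isUnit (isUnit_of_dvd_one h3)

end Pool.Agent.SZT.H88
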