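import Pool.Agent.SZT.StmtsC

set_option autoImplicit false

/-!
# Squad SZT, row MSM: the main inequality
-/

namespace Pool.Agent.SZT.H88M

open Polynomial NumberField H58Q

/-- logarithmic product formula. -/
theorem logprod {K : Type} [Field K] [NumberField K] {x : K} (hx : x ≠ 0)
    (T : Finset (FinitePlace K)) (hT : ∀ v : FinitePlace K, v x ≠ 1 → v ∈ T) :
    ∑ v : InfinitePlace K, (v.mult : ℝ) * Real.log (v x) + ∑ v ∈ T, Real.log (v x) = 0 := by
  have h := prod_abs_eq_one hx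
  have h1 : ∏ᶠ w : FinitePlace K, w x = ∏ w ∈ T, w x := by
    apply finprod_eq_prod_of_mulSupport_subset
    intro v hv
    exact hT v hv
  rw [h1] at h
  have h2 := congrArg Real.log h
  have hp1 : ∀ w : InfinitePlace K, w x ^ w.mult ≠ 0 := fun w =>
    pow_ne_zero _ (InfinitePlace.pos_iff.mpr hx).ne'
  have hp2 : ∀ w : FinitePlace K, w x ≠ 0 := fun w => (FinitePlace.pos_iff.mpr hx).ne'
  rw [Real.log_one, Real.log_mul (Finset.prod_ne_zero_iff.mpr fun w _ => hp1 w)
    (Finset.prod_ne_zero_iff.mpr fun w _ => hp2 w), Real.log_prod (fun w _ => hp1 w),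
    Real.log_prod (fun w _ => hp2 w)] at h2
  simpa [Real.log_pow] using h2

theorem fin_supp {K : Type} [Field K] [NumberField K] {x : K} (hx : x ≠ 0) :
    ∃ T : Finset (FinitePlace K), ∀ v : FinitePlace K, v x ≠ 1 → v ∈ T := by
  have h : {v : FinitePlace K | v x ≠ 1}.Finite := FinitePlace.hasFiniteMulSupport hx
  exact ⟨h.toFinset, fun v hv => h.mem_toFinset.mpr hv⟩

theorem le_one_of_isIntegral {K : Type} [Field K] [NumberField K] (v : FinitePlace K) {x : K}
    (hx : IsIntegral ℤ x) : v x ≤ 1 := by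
  have h := FinitePlace.norm_le_one (K := K) (FinitePlace.maximalIdeal v) (⟨x, hx⟩ : 𝓞 K)
  rw [← FinitePlace.mk_apply, FinitePlace.mk_maximalIdeal] at h
  exact h

theorem log_two {K : Type} [Field K] [NumberField K] (T : Finset (FinitePlace K))
    (hT : ∀ v : FinitePlace K, v (2 : K) ≠ 1 → v ∈ T) :
    ∑ v ∈ T, Real.log (v (2 : K)) = - (Module.finrank ℚ K * Real.log 2) := by
  have h := logprod (K := K) (x := 2) two_ne_zero T hT
  have h2 : ∀ v : InfinitePlace K, v (2 : K) = 2 := by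
    intro v
    have h3 : ‖v.embedding (2 : K)‖ = v (2 : K) := InfinitePlace.norm_embedding_eq v 2
    rw [← h3, map_ofNat]
    exact Complex.norm_ofNat 2
  simp only [h2] at h
  rw [← Finset.sum_mul, ← Nat.cast_sum, InfinitePlace.sum_mult_eq] at h
  linarith

/-- the class of the power is principal. -/
theorem principal_of_same {K : Type} [Field K] (f : K[X]) [Fact (Odd f.natDegree)]
    (I J : Ideal (Q K f)) (m N k : ℕ) (h : SameCl J (I ^ (m * k))) (hP : (I ^ (m * N)).IsPrincipal) :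
    (J ^ (2 * N)).IsPrincipal := by
  obtain ⟨a, b, ha, hb, hab⟩ := h
  obtain ⟨⟨u, hu⟩⟩ := hP
  have hu' : I ^ (m * N) = Ideal.span {u} := hu
  have h1 : Ideal.span {a ^ (2 * N)} * J ^ (2 * N) = Ideal.span {b ^ (2 * N) * u ^ (2 * k)} := by
    have h2 := congrArg (fun L => L ^ (2 * N)) hab
    simp only [mul_pow, Ideal.span_singleton_pow] at h2
    rw [h2, ← Ideal.span_singleton_mul_span_singleton, ← Ideal.span_singleton_pow u, ← hu',
      ← pow_mul, ← pow_mul]
    congr 2
    ring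
  have ha2 : a ^ (2 * N) ≠ 0 := pow_ne_zero _ ha
  have h3 : b ^ (2 * N) * u ^ (2 * k) ∈ Ideal.span {a ^ (2 * N)} := by
    have : Ideal.span {b ^ (2 * N) * u ^ (2 * k)} ≤ Ideal.span {a ^ (2 * N)} := by
      rw [← h1]
      exact Ideal.mul_le_left (I := Ideal.span {a ^ (2 * N)}) (J := J ^ (2 * N))
    exact this (Ideal.mem_span_singleton_self _)
  obtain ⟨g, hg⟩ := Ideal.mem_span_singleton.mp h3
  refine ⟨⟨g, ?_⟩⟩
  change J ^ (2 * N) = Ideal.span {g}
  rw [hg, ← Ideal.span_singleton_mul_span_singleton] at h1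
  exact (Ideal.span_singleton_mul_right_inj ha2).mp h1

/-- `F(x) = {x}(1 - {x})`. -/
noncomputable def Fr (x : ℝ) : ℝ := Int.fract x * (1 - Int.fract x)

theorem Fr_nonneg (x : ℝ) : 0 ≤ Fr x :=
  mul_nonneg (Int.fract_nonneg x) (by have := Int.fract_lt_one x; linarith)

theorem Fr_int (x : ℝ) (m : ℤ) (h : x = m) : Fr x = 0 := by
  rw [Fr, h, Int.fract_intCast, zero_mul]

/-- the sum over all places, for one good multiple. -/
theorem core {K : Type} [Field K] [NumberField K] (hPFS : PfsStatement) (f A U : K[X]) (M : ℕ)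
    (ci c2 : ℝ) (S : Finset (FinitePlace K)) (F : FinitePlace K → ℝ) (hD0 : discr f ≠ 0)
    (hI : ∀ v : InfinitePlace K, (1 / 2) * Real.log (v (discr f))
      - 7 * Real.log (spr (f.map v.embedding)) - ci ≤ Lv v f A U M)
    (hF : ∀ v : FinitePlace K, (1 / 2) * Real.log (v (discr f)) + c2 * Real.log (v (2 : K))
      ≤ Lv v f A U M)
    (hS2 : ∀ v ∈ S, v (2 : K) = 1)
    (hSB : ∀ v ∈ S, Real.log (v (discr f)) * F v ≤ Lv v f A U M)
    (hAf : IsCoprime A f) (hAU : IsCoprime A U) :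
    (1 / 2) * (- ∑ v ∈ S, Real.log (v (discr f))) - 7 * lH f
      - (ci + c2 * Real.log 2) * Module.finrank ℚ K ≤ ∑ v ∈ S, (- Real.log (v (discr f))) * F v := by
  classical
  obtain ⟨T0, hT0⟩ := hPFS K f A U M hAf hAU
  obtain ⟨T1, hT1⟩ := fin_supp (K := K) hD0
  obtain ⟨T2, hT2⟩ := fin_supp (K := K) (x := 2) two_ne_zero
  set T := ((T0 ∪ T1) ∪ T2) ∪ S with hT
  have hST : S ⊆ T := Finset.subset_union_right
  have h0 := hT0 T (by
    intro v hv
    simp only [hT, Finset.mem_union]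
    exact Or.inl (Or.inl (Or.inl hv)))
  have hd := logprod hD0 T (fun v hv => by
    simp only [hT, Finset.mem_union]
    exact Or.inl (Or.inl (Or.inr (hT1 v hv))))
  have h2 := log_two (K := K) T (fun v hv => by
    simp only [hT, Finset.mem_union]
    exact Or.inl (Or.inr (hT2 v hv)))
  have hs2 : ∑ v ∈ S, Real.log (v (2 : K)) = 0 :=
    Finset.sum_eq_zero fun v hv => by rw [hS2 v hv, Real.log_one]
  have e1 := Finset.sum_sdiff (f := fun v : FinitePlace K => Lv v f A U M) hST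
  have e2 := Finset.sum_sdiff (f := fun v : FinitePlace K => Real.log (v (discr f))) hST
  have e3 := Finset.sum_sdiff (f := fun v : FinitePlace K => Real.log (v (2 : K))) hST
  have b1 : (1 / 2) * (∑ v : InfinitePlace K, (v.mult : ℝ) * Real.log (v (discr f))) - 7 * lH f
      - ci * Module.finrank ℚ K ≤ ∑ v : InfinitePlace K, (v.mult : ℝ) * Lv v f A U M := by
    have hm : (Module.finrank ℚ K : ℝ) = ∑ v : InfinitePlace K, (v.mult : ℝ) := by
      rw [← Nat.cast_sum, InfinitePlace.sum_mult_eq]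
    rw [hm, lH, Finset.mul_sum, Finset.mul_sum, Finset.mul_sum, ← Finset.sum_sub_distrib,
      ← Finset.sum_sub_distrib]
    apply Finset.sum_le_sum
    intro v _
    have h3 := mul_le_mul_of_nonneg_left (hI v) (Nat.cast_nonneg (α := ℝ) v.mult)
    calc _ = (v.mult : ℝ) * ((1 / 2) * Real.log (v (discr f))
      - 7 * Real.log (spr (f.map v.embedding)) - ci) := by ring
      _ ≤ _ := h3
  have b2 : (1 / 2) * (∑ v ∈ T \ S, Real.log (v (discr f)))
      + c2 * (∑ v ∈ T \ S, Real.log (v (2 : K))) ≤ ∑ v ∈ T \ S, Lv v f A U M := by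
    rw [Finset.mul_sum, Finset.mul_sum, ← Finset.sum_add_distrib]
    exact Finset.sum_le_sum fun v _ => hF v
  have b3 : - (∑ v ∈ S, (- Real.log (v (discr f))) * F v) ≤ ∑ v ∈ S, Lv v f A U M := by
    rw [← Finset.sum_neg_distrib]
    apply Finset.sum_le_sum
    intro v hv
    have := hSB v hv
    linarith
  rw [hs2, add_zero] at e3
  rw [e3, h2] at b2
  rw [← e1] at h0
  rw [← e2] at hd
  have hring : (ci + c2 * Real.log 2) * (Module.finrank ℚ K : ℝ)
    = ci * Module.finrank ℚ K + c2 * (Module.finrank ℚ K * Real.log 2) := by ring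
  rw [hring]
  linarith

theorem msm (hCNT : CntStatement) (hPEL : PelStatement) (hPFS : PfsStatement)
    (hLIF : LifStatement) (hLFN : LfnStatement) (hBOU : BOutStatement) (hAVG : AvgStatement)
    (hDSH : DshStatement) (hQVN : QvnStatement) : MsmStatement := by
  classical
  obtain ⟨ci, hci, hLIF⟩ := hLIF
  obtain ⟨c2, hc2, hLFN⟩ := hLFN
  have hl2 : 0 ≤ Real.log 2 := Real.log_nonneg (by norm_num)
  refine ⟨ci + c2 * Real.log 2, by positivity, ?_⟩
  intro K _ _ f A₁ B₁ m₀ n₀ N A B S hf hdeg hsq hint hMum hN hm₀ hdiv hP hnP hred hS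
  have : Fact (Odd f.natDegree) := ⟨by rw [hdeg]; decide⟩
  obtain ⟨hD0, hDint, -, -, -, -⟩ := hDSH K f hf hdeg hsq hint
  have hv1 : ∀ (v : FinitePlace K) (n : ℕ), v (f.coeff n) ≤ 1 := fun v n =>
    le_one_of_isIntegral v (hint n)
  -- the set of the good multiples
  set Gs := (Finset.range N).filter (fun k => Good f (A k) (B k)) with hGs
  have hI0 : (MI f A₁ B₁) ^ m₀ ≠ ⊥ := by
    have h1 : MI f A₁ B₁ ≠ 0 := by
      intro h
      have h2 : (⟨-B₁, 1⟩ : Q K f) ∈ MI f A₁ B₁ := Ideal.subset_span (by simp)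
      rw [h] at h2
      have h3 : (⟨-B₁, 1⟩ : Q K f) = 0 := by simpa using h2
      have h4 := congrArg QuadraticAlgebra.im h3
      simp at h4
    exact pow_ne_zero m₀ h1
  have hcnt : ((Finset.range N).filter (fun k => ¬ Good f (A k) (B k))).card
      ≤ 6 * (Nat.sqrt (2 * N) + 1) + 2 := by
    apply hCNT K f ((MI f A₁ B₁) ^ m₀) N A B two_ne_zero hsq hdeg hI0 hN
    · rw [← pow_mul]; exact hP
    · intro j hj hjN
      rw [← pow_mul]; exact hnP j hj hjN
    · intro k
      rw [← pow_mul]; exact hred k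
    · intro k hk
      rw [Finset.mem_filter, Finset.mem_range] at hk
      exact hk
  refine ⟨Gs.card, ?_, ?_, ?_⟩
  · have h1 : Gs.card + ((Finset.range N).filter (fun k => ¬ Good f (A k) (B k))).card
        = (Finset.range N).card := Finset.card_filter_add_card_filter_not _
    rw [Finset.card_range] at h1
    omega
  · have h1 := Finset.card_filter_le (Finset.range N) (fun k => Good f (A k) (B k))
    rw [Finset.card_range] at h1
    exact h1
  -- the places of `S`
  have hB : ∀ v : FinitePlace K, ∃ (n : ℕ) (s : ℝ), v ∈ S → (0 < n ∧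
      v (discr f) * (Ideal.absNorm v.maximalIdeal.asIdeal : ℝ) ^ n = 1 ∧
      (∃ m : ℤ, ((m₀ * N : ℕ) : ℝ) * s = m) ∧ (∃ m : ℤ, (n : ℝ) * s = m) ∧
      ∀ (k : ℕ) (A B U W : K[X]) (M : ℕ), Good f A B →
        SameCl (MI f A B) ((MI f A₁ B₁) ^ k) → 0 < M → Even M →
        (MI f A B) ^ M = Ideal.span {(⟨U, W⟩ : Q K f)} → U ^ 2 - f * W ^ 2 = A ^ M →
        Real.log (v (discr f)) * Fr (k * s) ≤ Lv v f A U M) := by
    intro v
    by_cases hv : v ∈ S
    · obtain ⟨hnode, hlt⟩ := hS v hv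
      obtain ⟨n, hn, hq⟩ := hQVN K v (discr f) hD0 hlt
      obtain ⟨s, hs1, hs2, hs3⟩ := hBOU K v f n hf hdeg hsq hnode hn hq A₁ B₁ (m₀ * N) hMum
        (Nat.mul_pos hm₀ hN) hP
      exact ⟨n, s, fun _ => ⟨hn, hq, hs1, hs2, hs3⟩⟩
    · exact ⟨0, 0, fun h => absurd h hv⟩
  choose n s hB using hB
  set S' := S.filter (fun v => v (discr f) * (Ideal.absNorm v.maximalIdeal.asIdeal : ℝ) ^ n₀ < 1)
    with hS'
  have hvan : ∀ v ∈ S, v ∉ S' → ∀ k : ℕ, Fr (((m₀ * k : ℕ) : ℝ) * s v) = 0 := by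
    intro v hv hv' k
    obtain ⟨hn, hq, -, ⟨m, hm⟩, -⟩ := hB v hv
    have hlt := (hS v hv).2
    have h1 : ¬ (v (discr f) * (Ideal.absNorm v.maximalIdeal.asIdeal : ℝ) ^ n₀ < 1) := by
      intro h
      exact hv' (Finset.mem_filter.mpr ⟨hv, h⟩)
    rw [not_lt] at h1
    have hD : 0 < v (discr f) := FinitePlace.pos_iff.mpr hD0
    set q : ℝ := (Ideal.absNorm v.maximalIdeal.asIdeal : ℝ) with hqdef
    have hq0 : 0 ≤ q := Nat.cast_nonneg _
    have hq1 : 1 < q := by
      by_contra hcon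
      rw [not_lt] at hcon
      have h2 : q ^ n v ≤ 1 := pow_le_one₀ hq0 hcon
      have h3 : v (discr f) * q ^ n v ≤ v (discr f) * 1 := mul_le_mul_of_nonneg_left h2 hD.le
      rw [hq] at h3
      linarith
    have hle : n v ≤ n₀ := by
      rw [← hq] at h1
      have h2 := le_of_mul_le_mul_left h1 hD
      exact (pow_le_pow_iff_right₀ hq1).mp h2
    obtain ⟨d, hd⟩ := hdiv (n v) hn hle
    apply Fr_int _ (d * k * m)
    rw [hd]
    push_cast
    rw [← hm]
    ring
  have hone : ∀ k ∈ Gs, (1 / 2) * (- ∑ v ∈ S, Real.log (v (discr f))) - 7 * lH f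
      - (ci + c2 * Real.log 2) * Module.finrank ℚ K
        ≤ ∑ v ∈ S', (- Real.log (v (discr f))) * Fr (((m₀ * k : ℕ) : ℝ) * s v) := by
    intro k hk
    have hgood : Good f (A k) (B k) := (Finset.mem_filter.mp hk).2
    have hprin : ((MI f (A k) (B k)) ^ (2 * N)).IsPrincipal :=
      principal_of_same f (MI f A₁ B₁) (MI f (A k) (B k)) m₀ N k (hred k).2.2 hP
    obtain ⟨U, W, hspan, hpell, hcop⟩ := hPEL K f (A k) (B k) (2 * N) two_ne_zero hsq hdeg hgood
      (by omega) hprin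
    have hev : Even (2 * N) := ⟨N, by ring⟩
    have h := core hPFS f (A k) U (2 * N) ci c2 S (fun v => Fr (((m₀ * k : ℕ) : ℝ) * s v)) hD0
      (fun v => hLIF K v f (A k) (B k) U W (2 * N) hf hdeg hsq hgood hcop (by omega) hev hpell)
      (fun v => hLFN K v f (A k) (B k) U W (2 * N) hf hdeg hsq (hv1 v) hgood hcop (by omega) hev hpell)
      (fun v hv => (hS v hv).1.1)
      (fun v hv => (hB v hv).2.2.2.2 (m₀ * k) (A k) (B k) U W (2 * N) hgood (hred k).2.2 (by omega)
        hev hspan hpell)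
      hgood.cop hcop
    refine h.trans (le_of_eq ?_)
    symm
    apply Finset.sum_subset (Finset.filter_subset _ _)
    intro v hv hv'
    rw [hvan v hv hv' k, mul_zero]
  have hsum := Finset.sum_le_sum hone
  rw [Finset.sum_const, nsmul_eq_mul] at hsum
  refine hsum.trans ?_
  rw [Finset.sum_comm, ← Finset.sum_neg_distrib, Finset.mul_sum]
  apply Finset.sum_le_sum
  intro v hv
  have hvS : v ∈ S := Finset.mem_of_mem_filter v hv
  have hlog : 0 ≤ - Real.log (v (discr f)) := by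
    have := Real.log_nonpos (apply_nonneg v (discr f)) (hS v hvS).2.le
    linarith
  rw [← Finset.mul_sum, mul_comm (N / 6 : ℝ)]
  apply mul_le_mul_of_nonneg_left _ hlog
  obtain ⟨-, -, ⟨m, hm⟩, -, -⟩ := hB v hvS
  calc ∑ k ∈ Gs, Fr (((m₀ * k : ℕ) : ℝ) * s v)
      ≤ ∑ k ∈ Finset.range N, Fr (((m₀ * k : ℕ) : ℝ) * s v) :=
        Finset.sum_le_sum_of_subset_of_nonneg (Finset.filter_subset _ _) (fun _ _ _ => Fr_nonneg _)
    _ = ∑ k ∈ Finset.range N, Int.fract (k * (m₀ * s v)) * (1 - Int.fract (k * (m₀ * s v))) := by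
        apply Finset.sum_congr rfl
        intro k _
        have : (((m₀ * k : ℕ) : ℝ) * s v) = k * (m₀ * s v) := by push_cast; ring
        rw [this, Fr]
    _ ≤ N / 6 := by
        apply hAVG N (m₀ * s v) hN
        refine ⟨m, ?_⟩
        rw [← hm]
        push_cast
        ring

end Pool.Agent.SZT.H88M
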